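import Pool.Agent.H639Z.OP.Basic

set_option autoImplicit false
open MeasureTheory Filter Topology
open scoped ENNReal

namespace Pool.Agent.H639Z.OP

namespace Eig

variable {E : Type} [AddCommGroup E] [Module ℝ E] {D : Submodule ℝ E} {B Q : E → E → ℝ}

theorem zero_left (hB : Form D B) (h : E) : B 0 h = 0 := by
  have := hB.smul 0 0 h
  simpa using this

theorem smul_right (hB : Form D B) (c : ℝ) (f h : E) : B f (c • h) = c * B f h := by
  rw [hB.symm, hB.smul, hB.symm]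

theorem add_right (hB : Form D B) {f h h' : E} (hf : f ∈ D) (hh : h ∈ D) (hh' : h' ∈ D) :
    B f (h + h') = B f h + B f h' := by
  rw [hB.symm, hB.add h hh h' hh' f hf, hB.symm h, hB.symm h']

theorem sub_left (hB : Form D B) {f f' h : E} (hf : f ∈ D) (hf' : f' ∈ D) (hh : h ∈ D) :
    B (f - f') h = B f h - B f' h := by
  have h1 : f - f' = f + (-1 : ℝ) • f' := by simp [sub_eq_add_neg]
  rw [h1, hB.add f hf _ (D.smul_mem _ hf') h hh, hB.smul]; ring

theorem sub_right (hB : Form D B) {f h h' : E} (hf : f ∈ D) (hh : h ∈ D) (hh' : h' ∈ D) :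
    B f (h - h') = B f h - B f h' := by
  rw [hB.symm, sub_left hB hh hh' hf, hB.symm h, hB.symm h']

theorem sum_left' (hB : Form D B) {ι : Type} (s : Finset ι) {U : ι → E} (hU : ∀ j, U j ∈ D)
    (c : ι → ℝ) {h : E} (hh : h ∈ D) :
    B (∑ j ∈ s, c j • U j) h = ∑ j ∈ s, c j * B (U j) h := by
  classical
  induction s using Finset.induction_on with
  | empty => simpa using zero_left hB h
  | insert a s ha ih =>
    rw [Finset.sum_insert ha, Finset.sum_insert ha,
      hB.add _ (D.smul_mem _ (hU a)) _ (D.sum_mem fun j _ => D.smul_mem _ (hU j)) h hh, ih,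
      hB.smul]

theorem sum_mem {ι : Type} [Fintype ι] {U : ι → E} (hU : ∀ j, U j ∈ D) (c : ι → ℝ) :
    (∑ j, c j • U j) ∈ D := D.sum_mem fun j _ => D.smul_mem _ (hU j)

theorem sum_left (hB : Form D B) {ι : Type} [Fintype ι] {U : ι → E} (hU : ∀ j, U j ∈ D)
    (c : ι → ℝ) {h : E} (hh : h ∈ D) :
    B (∑ j, c j • U j) h = ∑ j, c j * B (U j) h := sum_left' hB _ hU c hh

theorem sum_right (hB : Form D B) {ι : Type} [Fintype ι] {U : ι → E} (hU : ∀ j, U j ∈ D)
    (c : ι → ℝ) {h : E} (hh : h ∈ D) :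
    B h (∑ j, c j • U j) = ∑ j, c j * B h (U j) := by
  rw [hB.symm, sum_left hB hU c hh]
  exact Finset.sum_congr rfl fun j _ => by rw [hB.symm]

theorem diag (hB : Form D B) {k : ℕ} {e : Fin k → E} (he : ∀ j, e j ∈ D) {μ : Fin k → ℝ}
    (ho : ∀ a b, B (e a) (e b) = if a = b then μ a else 0) (c : Fin k → ℝ) :
    B (∑ j, c j • e j) (∑ j, c j • e j) = ∑ j, c j ^ 2 * μ j := by
  rw [sum_left hB he c (sum_mem he c)]
  refine Finset.sum_congr rfl fun a _ => ?_
  rw [sum_right hB he c (he a)]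
  simp only [ho, mul_ite, mul_zero, Finset.sum_ite_eq, Finset.mem_univ, if_true]
  ring

theorem expand (hB : Form D B) {f h : E} (hf : f ∈ D) (hh : h ∈ D) (t : ℝ) :
    B (f + t • h) (f + t • h) = B f f + 2 * t * B f h + t ^ 2 * B h h := by
  have hth := D.smul_mem t hh
  rw [hB.add f hf _ hth _ (D.add_mem hf hth), add_right hB hf hf hth, add_right hB hth hf hth,
    smul_right hB, smul_right hB, hB.smul, hB.smul, hB.symm h f]
  ring

theorem quad {a b c : ℝ} (h : ∀ t : ℝ, 0 ≤ a + 2 * t * b + t ^ 2 * c) : b ^ 2 ≤ a * c := by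
  have := discrim_le_zero (a := c) (b := 2 * b) (c := a) (fun t => by have := h t; nlinarith)
  unfold discrim at this
  nlinarith

theorem cs (hB : Form D B) {f h : E} (hf : f ∈ D) (hh : h ∈ D) :
    B f h ^ 2 ≤ B f f * B h h :=
  quad fun t => by rw [← expand hB hf hh t]; exact hB.nonneg _

theorem key (hB : Form D B) {k j : ℕ} (hj : j < k) {U : Fin k → E} (hU : ∀ l, U l ∈ D)
    {e : Fin j → E} (he : ∀ i, e i ∈ D) :
    ∃ c : Fin k → ℝ, c ≠ 0 ∧ ∀ i, B (∑ l, c l • U l) (e i) = 0 := by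
  let T : (Fin k → ℝ) →ₗ[ℝ] (Fin j → ℝ) :=
    Matrix.mulVecLin (Matrix.of fun i l => B (U l) (e i))
  have hk : LinearMap.ker T ≠ ⊥ := LinearMap.ker_ne_bot_of_finrank_lt (by simpa using hj)
  obtain ⟨c, hc, hc0⟩ := Submodule.exists_mem_ne_zero_of_ne_bot hk
  refine ⟨c, hc0, fun i => ?_⟩
  rw [sum_left hB hU c (he i)]
  have := congrFun (LinearMap.mem_ker.1 hc) i
  simpa [T, Matrix.mulVec, dotProduct, mul_comm] using this

theorem normal (hB : Form D B) {s : E} (hs : 0 < B s s) :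
    B ((Real.sqrt (B s s))⁻¹ • s) ((Real.sqrt (B s s))⁻¹ • s) = 1 := by
  rw [hB.smul, smul_right hB]
  have h1 : Real.sqrt (B s s) ≠ 0 := (Real.sqrt_pos.2 hs).ne'
  have h2 := Real.mul_self_sqrt hs.le
  field_simp
  nlinarith

theorem unit (hB : Form D B) {k j : ℕ} {L : ℝ} {U : Fin k → E} (h : PreFrame D B Q k L U)
    (hj : j < k) {e : Fin j → E} (he : ∀ i, e i ∈ D) :
    ∃ s, (∃ c : Fin k → ℝ, s = ∑ l, c l • U l) ∧ B s s = 1 ∧ ∀ i, B s (e i) = 0 := by
  obtain ⟨c, hc0, hc⟩ := key hB hj h.1 he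
  have hp := h.2.1 c hc0
  refine ⟨(Real.sqrt (B (∑ l, c l • U l) (∑ l, c l • U l)))⁻¹ • ∑ l, c l • U l,
    ⟨fun l => (Real.sqrt (B (∑ l, c l • U l) (∑ l, c l • U l)))⁻¹ * c l, ?_⟩, normal hB hp,
    fun i => ?_⟩
  · rw [Finset.smul_sum]
    exact Finset.sum_congr rfl fun l _ => by rw [mul_smul]
  · rw [hB.smul, hc, mul_zero]

theorem build (hB : Form D B) (P : E → Prop) (k : ℕ)
    (step : ∀ j < k, ∀ e : Fin j → E, (∀ i, P (e i)) →
      (∀ a b, B (e a) (e b) = if a = b then 1 else 0) →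
      ∃ s, P s ∧ B s s = 1 ∧ ∀ i, B s (e i) = 0) :
    ∀ j ≤ k, ∃ e : Fin j → E, (∀ i, P (e i)) ∧
      ∀ a b, B (e a) (e b) = if a = b then 1 else 0 := by
  intro j
  induction j with
  | zero => exact fun _ => ⟨Fin.elim0, fun i => i.elim0, fun a => a.elim0⟩
  | succ j ih =>
    intro hj
    obtain ⟨e, he, ho⟩ := ih (by omega)
    obtain ⟨s, hs, h1, h2⟩ := step j (by omega) e he ho
    refine ⟨Fin.cons s e, fun i => ?_, fun a b => ?_⟩
    · refine Fin.cases ?_ (fun i => ?_) i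
      · simpa using hs
      · simpa using he i
    · refine Fin.cases ?_ (fun a => ?_) a <;> refine Fin.cases ?_ (fun b => ?_) b
      · simpa using h1
      · rw [if_neg (Fin.succ_ne_zero b).symm]; simpa using h2 b
      · rw [if_neg (Fin.succ_ne_zero a), hB.symm]; simpa using h2 a
      · simpa using ho a b

theorem minim (hB : Form D B) (hQ : Form D Q) (hc : Cpt D B Q) {j : ℕ} {e : Fin j → E}
    (he : ∀ i, e i ∈ D) {s : E} (hs : s ∈ D) (hs1 : B s s = 1) (hs2 : ∀ i, B s (e i) = 0) :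
    ∃ g, g ∈ D ∧ B g g = 1 ∧ (∀ i, B g (e i) = 0) ∧
      ∀ h, h ∈ D → B h h = 1 → (∀ i, B h (e i) = 0) → Q g g ≤ Q h h := by
  set S : Set ℝ := {r | ∃ h, h ∈ D ∧ B h h = 1 ∧ (∀ i, B h (e i) = 0) ∧ Q h h = r} with hS
  have hne : S.Nonempty := ⟨_, s, hs, hs1, hs2, rfl⟩
  have hbd : BddBelow S := ⟨0, by rintro r ⟨h, -, -, -, rfl⟩; exact hQ.nonneg h⟩
  have hex : ∀ n : ℕ, ∃ h, h ∈ D ∧ B h h = 1 ∧ (∀ i, B h (e i) = 0) ∧
      Q h h < sInf S + 1 / ((n : ℝ) + 1) := by
    intro n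
    obtain ⟨r, ⟨h, h1, h2, h3, rfl⟩, hr⟩ := exists_lt_of_csInf_lt hne
      (show sInf S < sInf S + 1 / ((n : ℝ) + 1) from lt_add_of_pos_right _ (by positivity))
    exact ⟨h, h1, h2, h3, hr⟩
  choose f hf1 hf2 hf3 hf4 using hex
  have hle : ∀ n : ℕ, 1 / ((n : ℝ) + 1) ≤ 1 := fun n => by
    rw [div_le_one (by positivity)]; linarith [(Nat.cast_nonneg n : (0 : ℝ) ≤ n)]
  obtain ⟨φ, hφ, g, hg, hlim, hlsc⟩ := hc f (max 1 (sInf S + 1)) hf1
    (fun n => by rw [hf2]; exact le_max_left _ _)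
    (fun n => le_trans (by linarith [hf4 n, hle n]) (le_max_right _ _))
  have hconv : ∀ w ∈ D, Tendsto (fun n => B (f (φ n)) w) atTop (𝓝 (B g w)) := by
    intro w hw
    have h0 : Tendsto (fun n => (B (f (φ n)) w - B g w) ^ 2) atTop (𝓝 0) := by
      refine squeeze_zero (fun n => sq_nonneg _) (fun n => ?_)
        (by simpa using hlim.mul_const (B w w))
      rw [← sub_left hB (hf1 _) hg hw]
      exact cs hB (D.sub_mem (hf1 _) hg) hw
    have h1 : Tendsto (fun n => B (f (φ n)) w - B g w) atTop (𝓝 0) := by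
      rw [tendsto_zero_iff_abs_tendsto_zero]
      have := h0.sqrt
      simpa [Function.comp_def, Real.sqrt_sq_eq_abs] using this
    simpa using h1.add_const (B g w)
  have hg2 : ∀ i, B g (e i) = 0 := fun i => by
    have := hconv (e i) (he i)
    simp only [hf3] at this
    exact (tendsto_nhds_unique tendsto_const_nhds this).symm
  have hg1 : B g g = 1 := by
    have h1 : ∀ n, B (f (φ n) - g) (f (φ n) - g) = 1 - 2 * B (f (φ n)) g + B g g := fun n => by
      rw [sub_left hB (hf1 _) hg (D.sub_mem (hf1 _) hg), sub_right hB (hf1 _) (hf1 _) hg,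
        sub_right hB hg (hf1 _) hg, hf2, hB.symm g (f (φ n))]
      ring
    simp only [h1] at hlim
    have h2 : Tendsto (fun n => 1 - 2 * B (f (φ n)) g + B g g) atTop
        (𝓝 (1 - 2 * B g g + B g g)) :=
      (((hconv g hg).const_mul 2).const_sub 1).add_const _
    have := tendsto_nhds_unique hlim h2
    linarith
  have hmin : Q g g ≤ sInf S := by
    by_contra hlt
    push Not at hlt
    obtain ⟨A, hA1, hA2⟩ := exists_between hlt
    have h1 : Tendsto (fun n => sInf S + 1 / ((φ n : ℝ) + 1)) atTop (𝓝 (sInf S + 0)) :=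
      (tendsto_one_div_add_atTop_nhds_zero_nat.comp hφ.tendsto_atTop).const_add _
    have h2 := h1.eventually (gt_mem_nhds (show sInf S + 0 < A by linarith))
    obtain ⟨n, hn1, hn2⟩ := ((hlsc A hA2).and h2).exists
    linarith [hf4 (φ n)]
  exact ⟨g, hg, hg1, hg2, fun h h1 h2 h3 => hmin.trans (csInf_le hbd ⟨h, h1, h2, h3, rfl⟩)⟩

theorem eig_step (hB : Form D B) (hQ : Form D Q) {j : ℕ} {e : Fin j → E}
    (he : ∀ i, e i ∈ D) (ho : ∀ a b, B (e a) (e b) = if a = b then 1 else 0)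
    (hev : ∀ i, ∀ g ∈ D, Q (e i) g = Q (e i) (e i) * B (e i) g)
    {g : E} (hg : g ∈ D) (hg1 : B g g = 1) (hg2 : ∀ i, B g (e i) = 0)
    (hmin : ∀ h, h ∈ D → B h h = 1 → (∀ i, B h (e i) = 0) → Q g g ≤ Q h h) :
    ∀ h ∈ D, Q g h = Q g g * B g h := by
  have h1 : ∀ h, h ∈ D → (∀ i, B h (e i) = 0) → Q g g * B h h ≤ Q h h := by
    intro h hh hp
    rcases (hB.nonneg h).eq_or_lt with h0 | h0
    · rw [← h0, mul_zero]; exact hQ.nonneg h
    · have := hmin _ (D.smul_mem _ hh) (normal hB h0) (fun i => by rw [hB.smul, hp, mul_zero])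
      rw [hQ.smul, smul_right hQ] at this
      have h2 : 0 < Real.sqrt (B h h) := Real.sqrt_pos.2 h0
      have h3 := Real.mul_self_sqrt h0.le
      have h4 : (Real.sqrt (B h h))⁻¹ * ((Real.sqrt (B h h))⁻¹ * Q h h) = Q h h / B h h := by
        rw [← mul_assoc, ← mul_inv, h3]; ring
      rw [h4, le_div_iff₀ h0] at this
      exact this
  have h2 : ∀ h, h ∈ D → (∀ i, B h (e i) = 0) → Q g h = Q g g * B g h := by
    intro h hh hp
    have := quad (a := 0) (b := Q g h - Q g g * B g h) (c := Q h h - Q g g * B h h) fun t => by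
      have := h1 (g + t • h) (D.add_mem hg (D.smul_mem _ hh)) fun i => by
        rw [hB.add g hg _ (D.smul_mem _ hh) _ (he i), hB.smul, hg2, hp]; ring
      rw [expand hB hg hh, expand hQ hg hh, hg1] at this
      nlinarith
    rw [zero_mul] at this
    have := pow_eq_zero_iff (two_ne_zero) |>.1 (le_antisymm this (sq_nonneg _))
    linarith
  intro h hh
  have hw := sum_mem he fun i => B h (e i)
  have h3 := h2 (h - ∑ i, B h (e i) • e i) (D.sub_mem hh hw) fun i => by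
    rw [sub_left hB hh hw (he i), sum_left hB he _ (he i)]
    simp [ho]
  rw [sub_right hQ hg hh hw, sub_right hB hg hh hw, sum_right hQ he _ hg, sum_right hB he _ hg]
    at h3
  have h4 : ∀ i, Q g (e i) = 0 := fun i => by
    rw [hQ.symm, hev i g hg, hB.symm (e i) g, hg2, mul_zero]
  simpa [h4, hg2] using h3

end Eig

theorem preFrame_frame {E : Type} [AddCommGroup E] [Module ℝ E] {D : Submodule ℝ E}
    {B Q : E → E → ℝ} (hB : Form D B) {k : ℕ} {L : ℝ} {U : Fin k → E}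
    (h : PreFrame D B Q k L U) : ∃ U' : Fin k → E, Frame D B Q k L U' := by
  have hmem : ∀ s, (∃ c : Fin k → ℝ, s = ∑ l, c l • U l) → s ∈ D := by
    rintro s ⟨c, rfl⟩; exact Eig.sum_mem h.1 c
  obtain ⟨e, he, ho⟩ := Eig.build hB (fun s => ∃ c : Fin k → ℝ, s = ∑ l, c l • U l) k
    (fun j hj e he _ => Eig.unit hB h hj fun i => hmem _ (he i)) k le_rfl
  refine ⟨e, fun j => hmem _ (he j), ho, fun c => ?_⟩
  have h1 := Eig.diag hB (fun j => hmem _ (he j)) (μ := fun _ => 1) ho c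
  simp only [mul_one] at h1
  rw [← h1]
  choose a ha using he
  have h2 : ∑ j, c j • e j = ∑ l, (∑ j, c j * a j l) • U l := by
    simp only [ha, Finset.smul_sum, Finset.sum_smul, mul_smul]
    exact Finset.sum_comm
  rw [h2]
  exact h.2.2 _

theorem eigen_frame {E : Type} [AddCommGroup E] [Module ℝ E] {D : Submodule ℝ E}
    {B Q : E → E → ℝ} (hB : Form D B) (hQ : Form D Q) (hc : Cpt D B Q) {k : ℕ} {L : ℝ}
    {U : Fin k → E} (h : PreFrame D B Q k L U) :
    ∃ U' : Fin k → E, Frame D B Q k L U' ∧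
      ∀ j, ∀ g ∈ D, Q (U' j) g = Q (U' j) (U' j) * B (U' j) g := by
  obtain ⟨e, he, ho⟩ := Eig.build hB
    (fun s => s ∈ D ∧ Q s s ≤ L ∧ ∀ g ∈ D, Q s g = Q s s * B s g) k
    (fun j hj e he ho => by
      obtain ⟨s, ⟨c, rfl⟩, h1, h2⟩ := Eig.unit hB h hj fun i => (he i).1
      obtain ⟨g, hg, hg1, hg2, hmin⟩ := Eig.minim hB hQ hc (fun i => (he i).1)
        (Eig.sum_mem h.1 c) h1 h2
      refine ⟨g, ⟨hg, ?_, Eig.eig_step hB hQ (fun i => (he i).1) ho (fun i => (he i).2.2)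
        hg hg1 hg2 hmin⟩, hg1, hg2⟩
      have h3 := h.2.2 c
      rw [h1, mul_one] at h3
      exact (hmin _ (Eig.sum_mem h.1 c) h1 h2).trans h3) k le_rfl
  refine ⟨e, ⟨fun j => (he j).1, ho, fun c => ?_⟩, fun j => (he j).2.2⟩
  rw [Eig.diag hQ (fun j => (he j).1) (μ := fun j => Q (e j) (e j)) (fun a b => by
    rw [(he a).2.2 _ (he b).1, ho]; split_ifs <;> simp) c, Finset.mul_sum]
  exact Finset.sum_le_sum fun j _ => by
    rw [mul_comm L]; exact mul_le_mul_of_nonneg_left (he j).2.1 (sq_nonneg _)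

end Pool.Agent.H639Z.OP
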